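import Mathlib

/-!
# Lists with owners

A family of lists (finite sets) `L i`; each list is owned by a vertex or has no owner. A list is
available at a set `X` of vertices if it is contained in `X` and its owner is not in `X`. If at
least `r + κ (|U| - |X|)` lists are available at every set `X ⊆ U` with fewer than `m` elements,
then the sum of the weights of the lists is at least what one would get from `r` chains.
-/

set_option autoImplicit false
open Finset

namespace Pool.Agent.N439.CT

/-- the iterated sums of `1, 0, 0, ...`: `W 1 k = 1`, `W 2 k = k`, `W 3 k = k(k+1)/2`, ...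
for `k ≥ 1` -/
def W : ℕ → ℕ → ℕ
  | 0, k => if k = 1 then 1 else 0
  | r + 1, k => ∑ j ∈ range (k + 1), W r j

theorem W_zero (r : ℕ) : W r 0 = 0 := by
  induction r with
  | zero => rfl
  | succ r ih =>
    show ∑ j ∈ range (0 + 1), W r j = 0
    rw [sum_range_one, ih]

theorem W_succ (r k : ℕ) : W (r + 1) (k + 1) = W (r + 1) k + W r (k + 1) := by
  show ∑ j ∈ range (k + 1 + 1), W r j = ∑ j ∈ range (k + 1), W r j + W r (k + 1)
  rw [sum_range_succ]

theorem W_one (k : ℕ) : W 1 (k + 1) = 1 := by
  induction k with
  | zero => rfl
  | succ k ih =>
    rw [W_succ, ih]
    rfl

theorem W_two (k : ℕ) : W 2 k = k := by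
  induction k with
  | zero => exact W_zero 2
  | succ k ih => rw [W_succ, ih, W_one]

theorem W_three (k : ℕ) : 2 * W 3 k = k * (k + 1) := by
  induction k with
  | zero => rw [W_zero]
  | succ k ih =>
    rw [W_succ, mul_add, ih, W_two]
    ring

theorem W_four (k : ℕ) : 6 * W 4 k = k * (k + 1) * (k + 2) := by
  induction k with
  | zero => rw [W_zero]
  | succ k ih =>
    have h := W_three (k + 1)
    rw [W_succ, mul_add, ih]
    linarith

set_option linter.unusedSectionVars false

variable {V ι : Type} [DecidableEq V] [DecidableEq ι]

/-- the weight of a list -/
def wt (r m : ℕ) (o : Option V) (L : Finset V) : ℕ :=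
  if o = none then W (r + 1) (m - L.card) else W r (m - L.card)

/-- the lists available at `X` -/
def av (I : Finset ι) (o : ι → Option V) (L : ι → Finset V) (X : Finset V) : Finset ι :=
  I.filter fun i => L i ⊆ X ∧ ∀ x ∈ X, o i ≠ some x

theorem mem_av {I : Finset ι} {o : ι → Option V} {L : ι → Finset V} {X : Finset V} {i : ι} :
    i ∈ av I o L X ↔ i ∈ I ∧ L i ⊆ X ∧ ∀ x ∈ X, o i ≠ some x := by
  unfold av
  rw [mem_filter]

theorem wt_succ (r m : ℕ) (o : Option V) (L : Finset V) :
    wt (r + 1) (m + 1) o L = wt (r + 1) m o L + wt r (m + 1) o L := by
  unfold wt
  rcases Nat.lt_or_ge m L.card with h | h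
  · have h1 : m + 1 - L.card = 0 := by omega
    have h2 : m - L.card = 0 := by omega
    rw [h1, h2]
    simp only [W_zero]
    split_ifs <;> rfl
  · have h1 : m + 1 - L.card = m - L.card + 1 := by omega
    rw [h1]
    split_ifs
    · exact W_succ _ _
    · exact W_succ _ _

/-- **The weight inequality.** -/
theorem gc (κ : ℕ) : ∀ (r m : ℕ) (U : Finset V) (I : Finset ι) (o : ι → Option V)
    (L : ι → Finset V), (∀ i ∈ I, ∀ x, o i = some x → x ∈ U) →
    (∀ X ⊆ U, X.card < m → r + κ * (U.card - X.card) ≤ (av I o L X).card) →
    r * W (r + 1) m + κ * U.card * W r m ≤ ∑ i ∈ I, wt r m (o i) (L i) := by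
  intro r
  induction r with
  | zero =>
    intro m U I o L _ hp
    rw [zero_mul, zero_add]
    by_cases hm : m = 1
    · subst hm
      have h1 := hp ∅ (empty_subset _) (by simp)
      rw [card_empty, Nat.sub_zero, zero_add] at h1
      have h2 : W 0 1 = 1 := rfl
      rw [h2, mul_one]
      refine h1.trans ?_
      rw [card_eq_sum_ones]
      calc ∑ i ∈ av I o L ∅, 1 = ∑ i ∈ av I o L ∅, wt 0 1 (o i) (L i) := by
            apply sum_congr rfl
            intro i hi
            rw [mem_av] at hi
            have : L i = ∅ := subset_empty.1 hi.2.1
            unfold wt
            rw [this, card_empty]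
            split_ifs
            · rfl
            · rfl
        _ ≤ ∑ i ∈ I, wt 0 1 (o i) (L i) := by
            apply sum_le_sum_of_subset
            intro i hi
            exact (mem_av.1 hi).1
    · have : W 0 m = 0 := by
        show (if m = 1 then 1 else 0) = 0
        rw [if_neg hm]
      rw [this, mul_zero]
      exact Nat.zero_le _
  | succ r ihr =>
    intro m
    induction m with
    | zero =>
      intro U I o L _ _
      rw [W_zero, W_zero]
      simp
    | succ m ihm =>
      intro U I o L ho hp
      have hX0 := hp ∅ (empty_subset _) (by simp)
      rw [card_empty, Nat.sub_zero] at hX0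
      by_cases hA : ∃ i ∈ I, L i = ∅ ∧ o i = none
      · -- an empty list without owner
        obtain ⟨i₀, hi₀, hL₀, ho₀⟩ := hA
        have h1 := ihm U I o L ho (fun X hX hc => hp X hX (by omega))
        have h2 := ihr (m + 1) U (I.erase i₀) o L (fun i hi => ho i (mem_of_mem_erase hi)) (by
          intro X hX hc
          have h3 := hp X hX hc
          have h4 : av (I.erase i₀) o L X = (av I o L X).erase i₀ := by
            ext i
            rw [mem_erase, mem_av, mem_av, mem_erase]
            tauto
          have h5 : i₀ ∈ av I o L X := by
            rw [mem_av, hL₀, ho₀]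
            exact ⟨hi₀, empty_subset _, fun x _ h => by cases h⟩
          rw [h4, card_erase_of_mem h5]
          omega)
        have h6 : ∑ i ∈ I, wt (r + 1) (m + 1) (o i) (L i) =
            ∑ i ∈ I, wt (r + 1) m (o i) (L i) +
              (∑ i ∈ I.erase i₀, wt r (m + 1) (o i) (L i) + W (r + 1) (m + 1)) := by
          have h7 : wt r (m + 1) (o i₀) (L i₀) = W (r + 1) (m + 1) := by
            unfold wt
            rw [ho₀, if_pos rfl, hL₀, card_empty, Nat.sub_zero]
          rw [← h7, sum_erase_add _ _ hi₀, ← sum_add_distrib]
          exact sum_congr rfl fun i _ => wt_succ r m (o i) (L i)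
        rw [h6, W_succ (r + 1) m, W_succ r m]
        rw [W_succ r m] at h2
        nlinarith [h1, h2]
      · push Not at hA
        -- a vertex with many empty lists
        have hpig : ∃ x ∈ U, κ < (I.filter fun i => L i = ∅ ∧ o i = some x).card := by
          by_contra hcon
          push Not at hcon
          have h1 : av I o L ∅ ⊆ U.biUnion fun x => I.filter fun i => L i = ∅ ∧ o i = some x := by
            intro i hi
            rw [mem_av] at hi
            have hLi : L i = ∅ := subset_empty.1 hi.2.1
            have hoi := hA i hi.1 hLi
            obtain ⟨x, hx⟩ := Option.ne_none_iff_exists'.1 hoi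
            exact mem_biUnion.2 ⟨x, ho i hi.1 x hx, mem_filter.2 ⟨hi.1, hLi, hx⟩⟩
          have h2 := (card_le_card h1).trans (card_biUnion_le.trans (sum_le_sum hcon))
          rw [sum_const, smul_eq_mul] at h2
          have h3 : U.card * κ = κ * U.card := mul_comm _ _
          omega
        obtain ⟨x, hxU, hx⟩ := hpig
        obtain ⟨E, hE, hEc⟩ := exists_subset_card_eq (Nat.succ_le_of_lt hx)
        have hEI : ∀ i ∈ E, i ∈ I ∧ L i = ∅ ∧ o i = some x := by
          intro i hi
          exact mem_filter.1 (hE hi)
        have hUc : (U.erase x).card = U.card - 1 := card_erase_of_mem hxU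
        have hUpos : 0 < U.card := card_pos.2 ⟨x, hxU⟩
        -- the system without `x`
        set I₁ := I.filter fun i => o i ≠ some x with hI₁
        have h1 := ihm (U.erase x) I₁ o (fun i => (L i).erase x) (by
          intro i hi y hy
          rw [hI₁, mem_filter] at hi
          refine mem_erase.2 ⟨?_, ho i hi.1 y hy⟩
          rintro rfl
          exact hi.2 hy) (by
          intro X hX hc
          have hxX : x ∉ X := fun h => notMem_erase x U (hX h)
          have h3 := hp (insert x X) (insert_subset hxU (hX.trans (erase_subset _ _)))
            (by rw [card_insert_of_notMem hxX]; omega)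
          rw [card_insert_of_notMem hxX] at h3
          have h4 : av I o L (insert x X) ⊆ av I₁ o (fun i => (L i).erase x) X := by
            intro i hi
            rw [mem_av] at hi ⊢
            refine ⟨?_, ?_, ?_⟩
            · rw [hI₁, mem_filter]
              exact ⟨hi.1, hi.2.2 x (mem_insert_self _ _)⟩
            · intro y hy
              rw [mem_erase] at hy
              exact mem_of_mem_insert_of_ne (hi.2.1 hy.2) hy.1
            · intro y hy
              exact hi.2.2 y (mem_insert_of_mem hy)
          have h5 := card_le_card h4
          have h6 : (U.erase x).card - X.card = U.card - (X.card + 1) := by omega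
          rw [h6]
          omega)
        -- the system of the sets which do not contain `x`
        set I₂ := (I.filter fun i => x ∉ L i) \ E with hI₂
        set o₂ : ι → Option V := fun i => if o i = some x then none else o i with ho₂
        have h2 := ihr (m + 1) (U.erase x) I₂ o₂ L (by
          intro i hi y hy
          rw [hI₂, mem_sdiff, mem_filter] at hi
          rw [ho₂] at hy
          simp only at hy
          split_ifs at hy with h
          refine mem_erase.2 ⟨?_, ho i hi.1.1 y hy⟩
          rintro rfl
          exact h hy) (by
          intro X hX hc
          have hxX : x ∉ X := fun h => notMem_erase x U (hX h)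
          have h3 := hp X (hX.trans (erase_subset _ _)) hc
          have h4 : av I o L X ⊆ av I₂ o₂ L X ∪ E := by
            intro i hi
            rw [mem_union]
            by_cases hiE : i ∈ E
            · exact Or.inr hiE
            · left
              rw [mem_av] at hi ⊢
              refine ⟨?_, hi.2.1, ?_⟩
              · rw [hI₂, mem_sdiff, mem_filter]
                exact ⟨⟨hi.1, fun h => hxX (hi.2.1 h)⟩, hiE⟩
              · intro y hy
                rw [ho₂]
                simp only
                split_ifs with h
                · intro h'
                  cases h'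
                · exact hi.2.2 y hy
          have h5 := (card_le_card h4).trans (card_union_le _ _)
          rw [hEc] at h5
          have hXc : X.card ≤ (U.erase x).card := card_le_card hX
          have h6 : U.card - X.card = (U.erase x).card - X.card + 1 := by omega
          rw [h6, mul_add, mul_one] at h3
          omega)
        -- comparison of the weights
        have h3 : ∀ i ∈ I, (if i ∈ I₁ then wt (r + 1) m (o i) ((L i).erase x) else 0) +
            (if i ∈ I₂ then wt r (m + 1) (o₂ i) (L i) else 0) +
            (if i ∈ E then W (r + 1) (m + 1) else 0) ≤ wt (r + 1) (m + 1) (o i) (L i) := by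
          intro i hi
          by_cases hiE : i ∈ E
          · obtain ⟨_, hLi, hoi⟩ := hEI i hiE
            have n1 : i ∉ I₁ := by
              rw [hI₁, mem_filter]
              exact fun h => h.2 hoi
            have n2 : i ∉ I₂ := by
              rw [hI₂, mem_sdiff]
              exact fun h => h.2 hiE
            rw [if_neg n1, if_neg n2, if_pos hiE, zero_add, zero_add]
            unfold wt
            rw [hoi, if_neg (by simp), hLi, card_empty, Nat.sub_zero]
          · rw [if_neg hiE, add_zero]
            by_cases hoi : o i = some x
            · have n1 : i ∉ I₁ := by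
                rw [hI₁, mem_filter]
                exact fun h => h.2 hoi
              rw [if_neg n1, zero_add]
              split_ifs
              · have e1 : o₂ i = none := by
                  rw [ho₂]
                  simp only
                  rw [if_pos hoi]
                unfold wt
                rw [e1, if_pos rfl, hoi, if_neg (by simp)]
              · exact Nat.zero_le _
            · have n1 : i ∈ I₁ := by
                rw [hI₁, mem_filter]
                exact ⟨hi, hoi⟩
              have e1 : o₂ i = o i := by
                rw [ho₂]
                simp only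
                rw [if_neg hoi]
              rw [if_pos n1, e1]
              by_cases hxL : x ∈ L i
              · have n2 : i ∉ I₂ := by
                  rw [hI₂, mem_sdiff, mem_filter]
                  exact fun h => h.1.2 hxL
                rw [if_neg n2, add_zero]
                have e2 : m - ((L i).erase x).card = m + 1 - (L i).card := by
                  have := card_erase_add_one hxL
                  omega
                unfold wt
                rw [e2]
              · have n2 : i ∈ I₂ := by
                  rw [hI₂, mem_sdiff, mem_filter]
                  exact ⟨⟨hi, hxL⟩, hiE⟩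
                rw [if_pos n2, erase_eq_of_notMem hxL, wt_succ]
        have h4 := sum_le_sum h3
        rw [sum_add_distrib, sum_add_distrib, ← sum_filter, ← sum_filter, ← sum_filter] at h4
        have f1 : I.filter (fun i => i ∈ I₁) = I₁ := by
          ext i
          rw [mem_filter]
          constructor
          · exact fun h => h.2
          · intro h
            rw [hI₁, mem_filter] at h
            exact ⟨h.1, by rw [hI₁, mem_filter]; exact h⟩
        have f2 : I.filter (fun i => i ∈ I₂) = I₂ := by
          ext i
          rw [mem_filter]
          constructor
          · exact fun h => h.2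
          · intro h
            have h' := h
            rw [hI₂, mem_sdiff, mem_filter] at h'
            exact ⟨h'.1.1, h⟩
        have f3 : I.filter (fun i => i ∈ E) = E := by
          ext i
          rw [mem_filter]
          exact ⟨fun h => h.2, fun h => ⟨(hEI i h).1, h⟩⟩
        rw [f1, f2, f3, sum_const, smul_eq_mul, hEc] at h4
        rw [hUc] at h1 h2
        obtain ⟨u, hu⟩ : ∃ u, U.card = u + 1 := ⟨U.card - 1, by omega⟩
        rw [hu, Nat.add_sub_cancel] at h1 h2
        rw [hu]
        refine le_trans ?_ h4
        have e1 := W_succ (r + 1) m
        have e2 := W_succ r m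
        rw [e1]
        have h5 : (r + 1) * (W (r + 1 + 1) m + W (r + 1) (m + 1)) + κ * (u + 1) * W (r + 1) (m + 1) =
            ((r + 1) * W (r + 1 + 1) m + κ * u * W (r + 1) m) +
              (r * W (r + 1) (m + 1) + κ * u * W r (m + 1)) + (κ + 1) * W (r + 1) (m + 1) := by
          rw [e2]
          ring
        rw [h5]
        exact Nat.add_le_add_right (Nat.add_le_add h1 h2) _

end Pool.Agent.N439.CT
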