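import Mathlib

/-!
# Arc-coloured oriented graphs: empty lists

`R` is an oriented graph, the arcs are coloured with the colours `0, ..., κ+1`. In a set `S` of
vertices, the list `ls S v i` of a vertex `v` and a colour `i` is the set of the vertices of `S`
to which `v` sends an arc of colour `i`. If every four vertices contain two arcs of the same
colour with the same tail then every set `S` of at least two vertices has at least
`κ |S| + 3` empty lists.
-/

set_option autoImplicit false
open Finset

namespace Pool.Agent.N439.CT

set_option linter.unusedSectionVars false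

variable {V : Type} [DecidableEq V] {R : V → V → Bool} {col : V → V → ℕ}

/-- the list of the vertex `v` and the colour `i` in the set `S` -/
def ls (R : V → V → Bool) (col : V → V → ℕ) (S : Finset V) (v : V) (i : ℕ) : Finset V :=
  S.filter fun y => R v y = true ∧ col v y = i

theorem mem_ls {S : Finset V} {v y : V} {i : ℕ} :
    y ∈ ls R col S v i ↔ y ∈ S ∧ R v y = true ∧ col v y = i := by
  unfold ls
  rw [mem_filter]

/-- every four vertices of `S` contain two arcs of the same colour with the same tail -/
def Cov (R : V → V → Bool) (col : V → V → ℕ) (S : Finset V) : Prop :=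
  ∀ Q ⊆ S, Q.card = 4 → ∃ x ∈ Q, ∃ y ∈ Q, ∃ z ∈ Q, y ≠ z ∧ R x y = true ∧ R x z = true ∧
    col x y = col x z

theorem Cov.mono {S T : Finset V} (h : Cov R col S) (hT : T ⊆ S) : Cov R col T :=
  fun Q hQ => h Q (hQ.trans hT)

/-- the empty lists -/
def em (R : V → V → Bool) (col : V → V → ℕ) (c : ℕ) (S : Finset V) : Finset (V × ℕ) :=
  (S ×ˢ range c).filter fun p => ls R col S p.1 p.2 = ∅

/-- the lists with exactly one element -/
def on (R : V → V → Bool) (col : V → V → ℕ) (c : ℕ) (S : Finset V) : Finset (V × ℕ) :=
  (S ×ˢ range c).filter fun p => (ls R col S p.1 p.2).card = 1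

theorem ls_erase (S : Finset V) (x v : V) (i : ℕ) :
    ls R col (S.erase x) v i = (ls R col S v i).erase x := by
  ext y
  rw [mem_ls, mem_erase, mem_erase, mem_ls]
  tauto

/-- removing a vertex -/
theorem em_erase (hR : ∀ x y, R x y = true → R y x = false) (c : ℕ) {S : Finset V} {x : V}
    (hx : x ∈ S) :
    (em R col c (S.erase x)).card + ((em R col c S).filter fun p => p.1 = x).card ≤
      (em R col c S).card + ((on R col c S).filter fun p => ls R col S p.1 p.2 = {x}).card := by
  have ir : ∀ v, R v v = false := by
    intro v
    by_contra h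
    rw [Bool.not_eq_false] at h
    have := hR v v h
    rw [h] at this
    cases this
  have h1 : em R col c (S.erase x) ⊆
      ((em R col c S).filter fun p => p.1 ≠ x) ∪
        ((on R col c S).filter fun p => ls R col S p.1 p.2 = {x}) := by
    intro p hp
    unfold em at hp
    rw [mem_filter, mem_product, mem_erase, ls_erase] at hp
    rw [mem_union, mem_filter, mem_filter]
    by_cases h : ls R col S p.1 p.2 = ∅
    · left
      unfold em
      rw [mem_filter, mem_product]
      exact ⟨⟨⟨hp.1.1.2, hp.1.2⟩, h⟩, hp.1.1.1⟩
    · right
      have hs : ls R col S p.1 p.2 = {x} := by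
        apply eq_singleton_iff_nonempty_unique_mem.2
        refine ⟨nonempty_iff_ne_empty.2 h, ?_⟩
        intro y hy
        by_contra hyx
        have : y ∈ (ls R col S p.1 p.2).erase x := mem_erase.2 ⟨hyx, hy⟩
        rw [hp.2] at this
        simp at this
      refine ⟨?_, hs⟩
      unfold on
      rw [mem_filter, mem_product, hs, card_singleton]
      exact ⟨⟨hp.1.1.2, hp.1.2⟩, rfl⟩
  have h2 := (card_le_card h1).trans (card_union_le _ _)
  have h3 := card_filter_add_card_filter_not (s := em R col c S) (fun p => p.1 = x)
  have h4 : ((em R col c S).filter fun p => p.1 ≠ x).card =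
      ((em R col c S).filter fun p => ¬ p.1 = x).card := rfl
  omega

theorem sum_em (R : V → V → Bool) (col : V → V → ℕ) (c : ℕ) (S : Finset V) :
    ∑ x ∈ S, ((em R col c S).filter fun p => p.1 = x).card = (em R col c S).card := by
  symm
  apply card_eq_sum_card_fiberwise
  intro p hp
  have hp' : p ∈ em R col c S := hp
  unfold em at hp'
  rw [mem_filter, mem_product] at hp'
  exact hp'.1.1

theorem sum_on (R : V → V → Bool) (col : V → V → ℕ) (c : ℕ) (S : Finset V) :
    ∑ x ∈ S, ((on R col c S).filter fun p => ls R col S p.1 p.2 = {x}).card ≤
      (on R col c S).card := by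
  rw [← card_biUnion]
  · apply card_le_card
    intro p hp
    rw [mem_biUnion] at hp
    obtain ⟨x, _, hp⟩ := hp
    exact (mem_filter.1 hp).1
  · intro x _ y _ hxy
    rw [Function.onFun, disjoint_left]
    intro p h1 h2
    rw [mem_filter] at h1 h2
    rw [h1.2] at h2
    exact hxy (singleton_injective h2.2)

/-- **Empty lists.** -/
theorem three (hR : ∀ x y, R x y = true → R y x = false) (κ : ℕ)
    (hcol : ∀ x y, col x y < κ + 2) : ∀ (k : ℕ) (S : Finset V), S.card = k + 2 → Cov R col S →
    κ * S.card + 3 ≤ (em R col (κ + 2) S).card := by
  intro k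
  induction k with
  | zero =>
    intro S hS _
    obtain ⟨x, y, hxy, rfl⟩ := card_eq_two.1 (by simpa using hS)
    have ir : ∀ v, R v v = false := by
      intro v
      by_contra h
      rw [Bool.not_eq_false] at h
      have := hR v v h
      rw [h] at this
      cases this
    -- without loss of generality there is no arc from `x` to `y`
    obtain ⟨x', y', hxy', he, hn⟩ : ∃ x' y', x' ≠ y' ∧ ({x, y} : Finset V) = {x', y'} ∧
        R x' y' = false := by
      by_cases h : R x y = true
      · exact ⟨y, x, hxy.symm, pair_comm x y, hR x y h⟩
      · exact ⟨x, y, hxy, rfl, by simpa using h⟩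
    rw [he]
    rw [he] at hS
    have h1 : (({x'} ×ˢ range (κ + 2) ∪ {y'} ×ˢ (range (κ + 2)).erase (col y' x')) :
        Finset (V × ℕ)) ⊆ em R col (κ + 2) {x', y'} := by
      intro p hp
      unfold em
      rw [mem_filter, mem_product]
      rw [mem_union, mem_product, mem_product, mem_singleton, mem_singleton] at hp
      rcases hp with ⟨h1, h2⟩ | ⟨h1, h2⟩
      · refine ⟨⟨by rw [h1]; simp, h2⟩, ?_⟩
        rw [eq_empty_iff_forall_notMem]
        intro z hz
        rw [mem_ls, h1, mem_insert, mem_singleton] at hz
        rcases hz with ⟨rfl | rfl, h3, _⟩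
        · rw [ir] at h3
          cases h3
        · rw [hn] at h3
          cases h3
      · refine ⟨⟨by rw [h1]; simp, mem_of_mem_erase h2⟩, ?_⟩
        rw [eq_empty_iff_forall_notMem]
        intro z hz
        rw [mem_ls, h1, mem_insert, mem_singleton] at hz
        rcases hz with ⟨rfl | rfl, h3, h4⟩
        · exact ne_of_mem_erase h2 h4.symm
        · rw [ir] at h3
          cases h3
    have h2 := card_le_card h1
    rw [card_union_of_disjoint, card_product, card_product, card_singleton, card_singleton,
      card_range] at h2
    · have h3 : κ + 1 ≤ ((range (κ + 2)).erase (col y' x')).card := by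
        have := pred_card_le_card_erase (s := range (κ + 2)) (a := col y' x')
        rw [card_range] at this
        omega
      rw [hS]
      omega
    · rw [disjoint_left]
      intro p h3 h4
      rw [mem_product, mem_singleton] at h3 h4
      exact hxy' (h3.1.symm.trans h4.1)
  | succ k ih =>
    intro S hS hcov
    by_contra hcon
    push Not at hcon
    have hce : ∀ x ∈ S, (S.erase x).card = k + 2 := by
      intro x hx
      rw [card_erase_of_mem hx]
      omega
    have hx3 : ∀ x ∈ S, (κ * (k + 2) + 3) + ((em R col (κ + 2) S).filter fun p => p.1 = x).card ≤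
        (em R col (κ + 2) S).card +
          ((on R col (κ + 2) S).filter fun p => ls R col S p.1 p.2 = {x}).card := by
      intro x hx
      have h1 := ih (S.erase x) (hce x hx) (hcov.mono (erase_subset x S))
      have h2 := em_erase (col := col) hR (κ + 2) hx
      rw [hce x hx] at h1
      omega
    have hsum := sum_le_sum hx3
    simp only [sum_add_distrib, sum_const, smul_eq_mul, sum_em] at hsum
    have hon := sum_on R col (κ + 2) S
    -- many small lists
    set P : Finset (V × ℕ) := (S ×ˢ range (κ + 2)).filter fun p => (ls R col S p.1 p.2).card ≤ 1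
      with hP
    have hPc : P.card = (em R col (κ + 2) S).card + (on R col (κ + 2) S).card := by
      unfold em on
      rw [← card_union_of_disjoint]
      · congr 1
        ext p
        rw [hP]
        simp only [mem_union, mem_filter]
        constructor
        · rintro ⟨hv, h⟩
          rcases Nat.lt_or_ge (ls R col S p.1 p.2).card 1 with h' | h'
          · exact Or.inl ⟨hv, card_eq_zero.1 (by omega)⟩
          · exact Or.inr ⟨hv, by omega⟩
        · rintro (⟨hv, h⟩ | ⟨hv, h⟩)
          · refine ⟨hv, ?_⟩
            rw [h, card_empty]
            omega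
          · exact ⟨hv, by omega⟩
      · rw [disjoint_left]
        intro p h1 h2
        rw [mem_filter] at h1 h2
        rw [h1.2, card_empty] at h2
        omega
    set Z := S.filter fun v => ∀ i < κ + 2, (ls R col S v i).card ≤ 1 with hZ
    have hup : P.card ≤ (κ + 1) * S.card + Z.card := by
      have h1 : P.card = ∑ v ∈ S, (P.filter fun p => p.1 = v).card := by
        apply card_eq_sum_card_fiberwise
        intro p hp
        have hp' : p ∈ P := hp
        rw [hP, mem_filter, mem_product] at hp'
        exact hp'.1.1
      have h2 : ∀ v ∈ S, (P.filter fun p => p.1 = v).card ≤ (κ + 1) + if v ∈ Z then 1 else 0 := by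
        intro v hv
        have h3 : (P.filter fun p => p.1 = v).card ≤
            ((range (κ + 2)).filter fun i => (ls R col S v i).card ≤ 1).card := by
          apply card_le_card_of_injOn (fun p => p.2)
          · intro p hp
            have hp' := mem_filter.1 (mem_coe.1 hp)
            rw [hP, mem_filter, mem_product] at hp'
            refine mem_coe.2 (mem_filter.2 ⟨hp'.1.1.2, ?_⟩)
            rw [← hp'.2]
            exact hp'.1.2
          · intro p hp q hq h
            have hp' := (mem_filter.1 (mem_coe.1 hp)).2
            have hq' := (mem_filter.1 (mem_coe.1 hq)).2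
            exact Prod.ext (hp'.trans hq'.symm) h
        split_ifs with h
        · refine h3.trans ((card_filter_le _ _).trans ?_)
          rw [card_range]
        · have h4 : ∃ i < κ + 2, 1 < (ls R col S v i).card := by
            by_contra h5
            push Not at h5
            exact h (mem_filter.2 ⟨hv, h5⟩)
          obtain ⟨i, hi, h5⟩ := h4
          have h6 : ((range (κ + 2)).filter fun i => (ls R col S v i).card ≤ 1) ⊆
              (range (κ + 2)).erase i := by
            intro j hj
            rw [mem_filter] at hj
            refine mem_erase.2 ⟨?_, hj.1⟩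
            rintro rfl
            omega
          have h7 := card_le_card h6
          rw [card_erase_of_mem (mem_range.2 hi), card_range] at h7
          omega
      rw [h1]
      refine (sum_le_sum h2).trans ?_
      rw [sum_add_distrib, sum_const, smul_eq_mul, ← card_filter]
      have h3 : (S.filter fun v => v ∈ Z) = Z := by
        ext v
        rw [mem_filter]
        exact ⟨fun h => h.2, fun h => ⟨(mem_filter.1 h).1, h⟩⟩
      rw [h3, mul_comm]
    have hZ4 : 4 ≤ Z.card := by
      rw [hS] at hsum hcon hup
      generalize (em R col (κ + 2) S).card = e at *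
      generalize (on R col (κ + 2) S).card = o at *
      generalize P.card = p at *
      generalize Z.card = z at *
      generalize ∑ x ∈ S, ((on R col (κ + 2) S).filter fun p => ls R col S p.1 p.2 = {x}).card = t
        at *
      have h5 : e ≤ κ * (k + 1 + 2) + 2 := by omega
      have h6 : (k + 1 + 2) * (κ * (k + 2)) + (k + 1 + 2) * 3 + e ≤ (k + 1 + 2) * e + o := by
        omega
      have h7 : (k + 1) * e ≤ (k + 1) * (κ * (k + 1 + 2) + 2) := Nat.mul_le_mul_left _ h5
      nlinarith [h5, h6, h7]
    obtain ⟨Q, hQ, hQ4⟩ := exists_subset_card_eq hZ4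
    have hQS : Q ⊆ S := hQ.trans (filter_subset _ _)
    obtain ⟨x, hx, y, hy, z, hz, hyz, h1, h2, h3⟩ := hcov Q hQS hQ4
    have h4 := (mem_filter.1 (hQ hx)).2 (col x y) (hcol x y)
    have h5 : 1 < (ls R col S x (col x y)).card :=
      one_lt_card.2 ⟨y, mem_ls.2 ⟨hQS hy, h1, rfl⟩, z, mem_ls.2 ⟨hQS hz, h2, h3.symm⟩, hyz⟩
    omega

end Pool.Agent.N439.CT
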