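import Pool.Agent.N439.CT.Gc
import Pool.Agent.N439.CT.Three

/-!
# Arc-coloured tournaments: the number of monochromatic out-cherries

If every four vertices of an arc-coloured tournament contain two arcs of the same colour with the
same tail then the number of such pairs of arcs is at least Turán's number.
-/

set_option autoImplicit false
open Finset

namespace Pool.Agent.N439.CT

variable {V : Type} [DecidableEq V] {R : V → V → Bool} {col : V → V → ℕ}

/-- the weights of the lists of an arc-coloured oriented graph -/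
theorem weights (hR : ∀ x y, R x y = true → R y x = false) (κ : ℕ)
    (hcol : ∀ x y, col x y < κ + 2) {S : Finset V} (hcov : Cov R col S) {m : ℕ}
    (hm : m + 1 ≤ S.card) : 3 * W 4 m + κ * S.card * W 3 m ≤
      ∑ p ∈ S ×ˢ range (κ + 2), W 3 (m - (ls R col S p.1 p.2).card) := by
  have h := gc κ 3 m S (S ×ˢ range (κ + 2)) (fun p => some p.1) (fun p => ls R col S p.1 p.2)
    (by
      intro p hp x hx
      rw [mem_product] at hp
      have : p.1 = x := by simpa using hx
      rw [← this]
      exact hp.1) (by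
      intro X hX hc
      have h1 : (S \ X).card = S.card - X.card := card_sdiff_of_subset hX
      have h2 := three (col := col) hR κ hcol (S.card - X.card - 2) (S \ X) (by omega)
        (hcov.mono sdiff_subset)
      rw [h1] at h2
      have h3 : em R col (κ + 2) (S \ X) ⊆ av (S ×ˢ range (κ + 2)) (fun p => some p.1)
          (fun p => ls R col S p.1 p.2) X := by
        intro p hp
        unfold em at hp
        rw [mem_filter, mem_product, mem_sdiff] at hp
        rw [mem_av, mem_product]
        refine ⟨⟨hp.1.1.1, hp.1.2⟩, ?_, ?_⟩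
        · intro y hy
          rw [mem_ls] at hy
          by_contra hyX
          have : y ∈ ls R col (S \ X) p.1 p.2 := mem_ls.2 ⟨mem_sdiff.2 ⟨hy.1, hyX⟩, hy.2⟩
          rw [hp.2] at this
          simp at this
        · intro x hx hxp
          have : p.1 = x := by simpa using hxp
          rw [this] at hp
          exact hp.1.1.2 hx
      have h4 := card_le_card h3
      omega)
  refine h.trans (le_of_eq ?_)
  apply sum_congr rfl
  intro p _
  unfold wt
  rw [if_neg (by simp)]

/-- the triples with two arcs of the same colour with the same tail -/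
def ch (R : V → V → Bool) (col : V → V → ℕ) (S : Finset V) : Finset (Finset V) :=
  (S.powersetCard 3).filter fun e => ∃ x ∈ e, ∃ y ∈ e, ∃ z ∈ e, y ≠ z ∧ R x y = true ∧
    R x z = true ∧ col x y = col x z

theorem mem_ch {S e : Finset V} : e ∈ ch R col S ↔ e ∈ S.powersetCard 3 ∧
    ∃ x ∈ e, ∃ y ∈ e, ∃ z ∈ e, y ≠ z ∧ R x y = true ∧ R x z = true ∧ col x y = col x z := by
  unfold ch
  rw [mem_filter]

theorem ch_card (hR : ∀ x y, R x y = true → R y x = false) (c : ℕ) (S : Finset V) :
    ∑ p ∈ S ×ˢ range c, (ls R col S p.1 p.2).card.choose 2 ≤ (ch R col S).card := by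
  have ir : ∀ v, R v v = false := by
    intro v
    by_contra h
    rw [Bool.not_eq_false] at h
    have := hR v v h
    rw [h] at this
    cases this
  have h1 : ∑ p ∈ S ×ˢ range c, (ls R col S p.1 p.2).card.choose 2 =
      ((S ×ˢ range c).sigma fun p => (ls R col S p.1 p.2).powersetCard 2).card := by
    rw [card_sigma]
    exact sum_congr rfl fun p _ => (card_powersetCard _ _).symm
  rw [h1]
  have key : ∀ q ∈ ((S ×ˢ range c).sigma fun p => (ls R col S p.1 p.2).powersetCard 2),
      q.1.1 ∈ S ∧ (∀ y ∈ q.2, y ∈ S ∧ R q.1.1 y = true ∧ col q.1.1 y = q.1.2) ∧ q.2.card = 2 := by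
    intro q hq
    rw [mem_sigma, mem_product, mem_powersetCard] at hq
    exact ⟨hq.1.1, fun y hy => mem_ls.1 (hq.2.1 hy), hq.2.2⟩
  apply card_le_card_of_injOn (fun q => insert q.1.1 q.2)
  · intro q hq
    obtain ⟨k1, k2, k3⟩ := key q (mem_coe.1 hq)
    have hn : q.1.1 ∉ q.2 := by
      intro h
      have := (k2 _ h).2.1
      rw [ir] at this
      cases this
    apply mem_coe.2
    unfold ch
    rw [mem_filter, mem_powersetCard]
    refine ⟨⟨insert_subset k1 fun y hy => (k2 y hy).1, by rw [card_insert_of_notMem hn, k3]⟩, ?_⟩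
    obtain ⟨y, z, hyz, he⟩ := card_eq_two.1 k3
    have hy : y ∈ q.2 := by
      rw [he]
      simp
    have hz : z ∈ q.2 := by
      rw [he]
      simp
    exact ⟨q.1.1, mem_insert_self _ _, y, mem_insert_of_mem hy, z, mem_insert_of_mem hz, hyz,
      (k2 y hy).2.1, (k2 z hz).2.1, (k2 y hy).2.2.trans (k2 z hz).2.2.symm⟩
  · intro q hq q' hq' h
    obtain ⟨k1, k2, k3⟩ := key q (mem_coe.1 hq)
    obtain ⟨l1, l2, l3⟩ := key q' (mem_coe.1 hq')
    have hn : q.1.1 ∉ q.2 := by
      intro h
      have := (k2 _ h).2.1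
      rw [ir] at this
      cases this
    have hn' : q'.1.1 ∉ q'.2 := by
      intro h
      have := (l2 _ h).2.1
      rw [ir] at this
      cases this
    simp only at h
    have e1 : q.1.1 = q'.1.1 := by
      by_contra hne
      have m1 : q'.1.1 ∈ q.2 := by
        have : q'.1.1 ∈ insert q.1.1 q.2 := by
          rw [h]
          exact mem_insert_self _ _
        exact mem_of_mem_insert_of_ne this (Ne.symm hne)
      have m2 : q.1.1 ∈ q'.2 := by
        have : q.1.1 ∈ insert q'.1.1 q'.2 := by
          rw [← h]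
          exact mem_insert_self _ _
        exact mem_of_mem_insert_of_ne this hne
      have := hR _ _ (k2 _ m1).2.1
      rw [(l2 _ m2).2.1] at this
      cases this
    have e2 : q.2 = q'.2 := by
      rw [← erase_insert hn, ← erase_insert hn', h, e1]
    have e3 : q.1.2 = q'.1.2 := by
      obtain ⟨y, hy⟩ : q.2.Nonempty := by
        rw [← card_pos, k3]
        norm_num
      have := (k2 y hy).2.2
      rw [e1, (l2 y (e2 ▸ hy)).2.2] at this
      exact this.symm
    obtain ⟨⟨a, b⟩, s⟩ := q
    obtain ⟨⟨a', b'⟩, s'⟩ := q'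
    simp only at e1 e2 e3
    subst e1 e2 e3
    rfl

theorem sum_ls (hT : ∀ x y, x ≠ y → R x y = true ∨ R y x = true) (c : ℕ)
    (hcol : ∀ x y, col x y < c) (S : Finset V) :
    S.card.choose 2 ≤ ∑ p ∈ S ×ˢ range c, (ls R col S p.1 p.2).card := by
  rw [← card_powersetCard, ← card_sigma]
  have h : (S.powersetCard 2) ⊆
      ((S ×ˢ range c).sigma fun p => ls R col S p.1 p.2).image fun q => {q.1.1, q.2} := by
    intro e he
    rw [mem_powersetCard] at he
    obtain ⟨x, y, hxy, rfl⟩ := card_eq_two.1 he.2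
    have hx := he.1 (mem_insert_self x {y})
    have hy : y ∈ S := he.1 (by simp)
    rw [mem_image]
    rcases hT x y hxy with h | h
    · exact ⟨⟨(x, col x y), y⟩, by
        rw [mem_sigma, mem_product, mem_range]
        exact ⟨⟨hx, hcol x y⟩, mem_ls.2 ⟨hy, h, rfl⟩⟩, rfl⟩
    · exact ⟨⟨(y, col y x), x⟩, by
        rw [mem_sigma, mem_product, mem_range]
        exact ⟨⟨hy, hcol y x⟩, mem_ls.2 ⟨hx, h, rfl⟩⟩, pair_comm y x⟩
  exact (card_le_card h).trans card_image_le

theorem pointwise (m s : ℕ) : W 3 (m - s) + m * s ≤ s.choose 2 + W 3 m := by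
  have h1 := W_three (m - s)
  have h2 := W_three m
  have h3 : 2 * s.choose 2 = s * (s - 1) := by
    rw [Nat.choose_two_right, mul_comm]
    exact Nat.div_mul_cancel (even_iff_two_dvd.1 (Nat.even_mul_pred_self s))
  rcases Nat.le_total s m with h | h
  · obtain ⟨d, rfl⟩ := Nat.exists_eq_add_of_le h
    rw [Nat.add_sub_cancel_left] at h1 ⊢
    rcases Nat.eq_zero_or_pos s with rfl | hs
    · simp
    · obtain ⟨t, rfl⟩ : ∃ t, s = t + 1 := ⟨s - 1, by omega⟩
      rw [Nat.add_sub_cancel] at h3
      nlinarith [h1, h2, h3]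
  · have h4 : m - s = 0 := by omega
    rw [h4, W_zero, zero_add]
    rcases Nat.eq_zero_or_pos s with rfl | hs
    · simp
    · obtain ⟨d, rfl⟩ := Nat.exists_eq_add_of_le h
      rcases Nat.eq_zero_or_pos d with rfl | hd
      · rw [add_zero] at h3 ⊢
        obtain ⟨t, rfl⟩ : ∃ t, m = t + 1 := ⟨m - 1, by omega⟩
        rw [Nat.add_sub_cancel] at h3
        nlinarith [h2, h3]
      · obtain ⟨t, rfl⟩ : ∃ t, d = t + 1 := ⟨d - 1, by omega⟩
        have h5 : m + (t + 1) - 1 = m + t := by omega
        rw [h5] at h3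
        nlinarith [h2, h3, Nat.zero_le (t * (t + 1))]

/-- Turán's number -/
def turan (n : ℕ) : ℕ :=
  if n % 3 = 0 then (n / 3) * (n / 3 - 1) * (2 * (n / 3) - 1)
  else if n % 3 = 1 then (n / 3) ^ 2 * (2 * (n / 3) - 1)
  else (n / 3) ^ 2 * (2 * (n / 3) + 1)

theorem arith (m n t : ℕ) (hn : m = n / 3)
    (h : 3 * W 4 m + m * n.choose 2 ≤ t + 2 * n * W 3 m) : turan n ≤ t := by
  have h3 := W_three m
  have h4 := W_four m
  have h2 : 2 * n.choose 2 = n * (n - 1) := by
    rw [Nat.choose_two_right, mul_comm]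
    exact Nat.div_mul_cancel (even_iff_two_dvd.1 (Nat.even_mul_pred_self n))
  unfold turan
  rw [← hn]
  rcases Nat.eq_zero_or_pos m with rfl | hm
  · split_ifs <;> simp
  obtain ⟨k, rfl⟩ : ∃ k, m = k + 1 := ⟨m - 1, by omega⟩
  have e1 : 2 * (k + 1) - 1 = 2 * k + 1 := by omega
  have e2 : k + 1 - 1 = k := by omega
  have hr : n = 3 * (k + 1) + n % 3 := by omega
  have hr3 : n % 3 < 3 := Nat.mod_lt _ (by norm_num)
  generalize n % 3 = r at *
  generalize n.choose 2 = b at *
  generalize W 4 (k + 1) = w4 at *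
  generalize W 3 (k + 1) = w3 at *
  subst hr
  have h5 : 3 * (k + 1) + r - 1 = 3 * k + 2 + r := by omega
  rw [h5] at h2
  rw [e1, e2]
  interval_cases r
  · rw [if_pos rfl]
    zify at h h2 h3 h4 ⊢
    nlinarith [h, h2, h3, h4]
  · rw [if_neg (by norm_num), if_pos rfl]
    zify at h h2 h3 h4 ⊢
    nlinarith [h, h2, h3, h4]
  · rw [if_neg (by norm_num), if_neg (by norm_num)]
    zify at h h2 h3 h4 ⊢
    nlinarith [h, h2, h3, h4]

/-- **Arc-coloured tournaments.** -/
theorem tournament (hR : ∀ x y, R x y = true → R y x = false)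
    (hT : ∀ x y, x ≠ y → R x y = true ∨ R y x = true) (κ : ℕ)
    (hcol : ∀ x y, col x y < κ + 2) {S : Finset V} (hcov : Cov R col S) :
    turan S.card ≤ (ch R col S).card := by
  apply arith (S.card / 3) S.card _ rfl
  rcases Nat.eq_zero_or_pos S.card with h0 | h0
  · rw [h0, Nat.zero_div, W_zero]
    simp
  have hw := weights hR κ hcol hcov (m := S.card / 3) (by omega)
  have h1 := ch_card (col := col) hR (κ + 2) S
  have h2 := sum_ls hT (κ + 2) hcol S
  have h3 : ∑ p ∈ S ×ˢ range (κ + 2), (W 3 (S.card / 3 - (ls R col S p.1 p.2).card) +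
      S.card / 3 * (ls R col S p.1 p.2).card) ≤
      ∑ p ∈ S ×ˢ range (κ + 2), ((ls R col S p.1 p.2).card.choose 2 + W 3 (S.card / 3)) :=
    sum_le_sum fun p _ => pointwise _ _
  rw [sum_add_distrib, sum_add_distrib, ← mul_sum, sum_const, card_product, card_range,
    smul_eq_mul] at h3
  have h4 := Nat.mul_le_mul_left (S.card / 3) h2
  have h5 : S.card * (κ + 2) * W 3 (S.card / 3) =
      κ * S.card * W 3 (S.card / 3) + 2 * S.card * W 3 (S.card / 3) := by ring
  rw [h5] at h3
  omega

end Pool.Agent.N439.CT
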